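import Pool.Agent.Lib.MP_bb5d5a_al.NotIYB

open Pool.Agent.Lib.MP_bb5d5a_al

/-- There is a finite soluble group (of order 1944) all of whose Sylow subgroups are IYB-groups
but which is not an IYB-group. -/
theorem Pool.Agent.Results.MP_bb5d5a_al.Counterexample.result :
    ∃ (G : Type) (_ : Group G) (_ : Finite G), Nat.card G = 1944 ∧ Group.IsSolvable G ∧
      (∀ p : ℕ, p.Prime → ∀ S : Sylow p G, IsIYB S) ∧ ¬ IsIYB G :=
  ⟨G, inferInstance, inferInstance, card_G, solvable_G, sylow_isIYB,
    fun h => not_hasCocycle_G (hasCocycle_of_isIYB h)⟩
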