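import Pool.Agent.Lib.MP_bb5d5a_al.S.Sup

open Pool.Agent.Lib.MP_bb5d5a_al

/-- For every prime `p ≥ 5` there is a finite supersoluble (in particular soluble) group of order
`8 p ^ 7` all of whose Sylow subgroups are IYB-groups but which is not an IYB-group. -/
theorem Pool.Agent.Results.MP_bb5d5a_al.Supersoluble.result (p : ℕ) (hp : p.Prime) (h5 : 5 ≤ p) :
    ∃ (G : Type) (_ : Group G) (_ : Finite G), Nat.card G = 8 * p ^ 7 ∧ Group.IsSolvable G ∧
      IsSupersoluble G ∧ (∀ q : ℕ, q.Prime → ∀ S : Sylow q G, IsIYB S) ∧ ¬ IsIYB G :=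
  haveI : Fact p.Prime := ⟨hp⟩
  haveI : Fact (Nat.Prime 2) := ⟨Nat.prime_two⟩
  ⟨S.G p, inferInstance, inferInstance, S.card_G, S.solvable, S.supersoluble,
    S.sylow_sd (S.act p) (by omega : p ≠ 2) S.card_P S.card_Q S.hasCocycle_P S.hasCocycle_Q,
    fun h => S.not_hasCocycle h5 (hasCocycle_of_isIYB h)⟩
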